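import Mathlib

set_option autoImplicit false

namespace Pool.Agent.J6H51.SqFree

/-- `u` has a square of half-length `l` at position `i`. -/
def Sq (u : ℕ → ℚ) (i l : ℕ) : Prop :=
  ∀ a < l, ∀ b < l, (u (i + a) < u (i + b) ↔ u (i + l + a) < u (i + l + b))

/-- paperfolding type levels -/
def h : ℕ → ℕ → ℚ
  | 0, _ => 0
  | K + 1, n => if n % 4 = 1 then 1 else if n % 4 = 3 then -1 else h K (n / 2) / 2

/-- order relation of the structured sequence -/
def S (K m n : ℕ) : Prop := h K m < h K n ∨ (h K m = h K n ∧ m < n)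

theorem h_le (K : ℕ) : ∀ n, |h K n| ≤ 1 := by
  induction K with
  | zero => intro n; simp [h]
  | succ K ih =>
    intro n
    unfold h
    split_ifs
    · simp
    · simp
    · have := ih (n / 2)
      rw [abs_le] at this ⊢
      constructor <;> linarith [this.1, this.2]

theorem h_peak (K n : ℕ) (hn : n % 4 = 1) : h (K + 1) n = 1 := by
  simp [h, hn]

theorem h_valley (K n : ℕ) (hn : n % 4 = 3) : h (K + 1) n = -1 := by
  simp [h, hn]

theorem h_mid (K n : ℕ) (hn : n % 2 = 0) : h (K + 1) n = h K (n / 2) / 2 := by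
  have h1 : ¬ n % 4 = 1 := by omega
  have h3 : ¬ n % 4 = 3 := by omega
  simp [h, h1, h3]

theorem h_mid_le (K n : ℕ) (hn : n % 2 = 0) :
    -(1/2) ≤ h (K + 1) n ∧ h (K + 1) n ≤ 1/2 := by
  rw [h_mid K n hn]
  have := h_le K (n / 2)
  rw [abs_le] at this
  constructor <;> linarith [this.1, this.2]

theorem S_step (K n : ℕ) : S (K + 1) n (n + 1) ↔ (n % 4 = 0 ∨ n % 4 = 3) := by
  have h4 : n % 4 = 0 ∨ n % 4 = 1 ∨ n % 4 = 2 ∨ n % 4 = 3 := by omega
  unfold S
  rcases h4 with h4 | h4 | h4 | h4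
  · have h1 := (h_mid_le K n (by omega)).2
    have h2 := h_peak K (n + 1) (by omega)
    constructor
    · intro _; left; exact h4
    · intro _; left; rw [h2]; linarith
  · have h1 := (h_mid_le K (n + 1) (by omega)).2
    have h2 := h_peak K n (by omega)
    constructor
    · rintro (h5 | ⟨h5, -⟩)
      · rw [h2] at h5; linarith
      · rw [h2] at h5; linarith
    · intro h5; omega
  · have h1 := (h_mid_le K n (by omega)).1
    have h2 := h_valley K (n + 1) (by omega)
    constructor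
    · rintro (h5 | ⟨h5, -⟩)
      · rw [h2] at h5; linarith
      · rw [h2] at h5; linarith
    · intro h5; omega
  · have h1 := (h_mid_le K (n + 1) (by omega)).1
    have h2 := h_valley K n (by omega)
    constructor
    · intro _; right; exact h4
    · intro _; left; rw [h2]; linarith

theorem S_double (K m n : ℕ) : S (K + 1) (2 * m) (2 * n) ↔ S K m n := by
  unfold S
  rw [h_mid K (2 * m) (by omega), h_mid K (2 * n) (by omega)]
  have e1 : 2 * m / 2 = m := by omega
  have e2 : 2 * n / 2 = n := by omega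
  rw [e1, e2]
  constructor
  · rintro (h5 | ⟨h5, h6⟩)
    · left; linarith
    · right; exact ⟨by linarith, by omega⟩
  · rintro (h5 | ⟨h5, h6⟩)
    · left; linarith
    · right; exact ⟨by linarith, by omega⟩

theorem noSq_S (K : ℕ) : ∀ s l : ℕ, 1 ≤ s → s + 2 * l ≤ 2 ^ (K + 1) → 2 ≤ l →
    ¬ (∀ a < l, ∀ b < l, (S K (s + a) (s + b) ↔ S K (s + l + a) (s + l + b))) := by
  induction K with
  | zero => intro s l h1 h2 h3; norm_num at h2; omega
  | succ K ih =>
    intro s l h1 h2 h3 hs
    have c0 := hs 0 (by omega) 1 (by omega)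
    rw [Nat.add_zero, Nat.add_zero, S_step, S_step] at c0
    have h4 : l % 4 = 0 := by
      by_contra h4
      by_cases h5 : l = 2
      · omega
      · have c1 := hs 1 (by omega) 2 (by omega)
        rw [show s + 2 = s + 1 + 1 by omega, show s + l + 2 = s + l + 1 + 1 by omega,
          S_step, S_step] at c1
        omega
    have e2 : 2 ^ (K + 1 + 1) = 2 * 2 ^ (K + 1) := by ring
    rw [e2] at h2
    apply ih ((s + 1) / 2) (l / 2) (by omega) (by omega) (by omega)
    intro a ha b hb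
    have k := hs (2 * a + s % 2) (by omega) (2 * b + s % 2) (by omega)
    rw [← S_double, ← S_double K]
    rw [show 2 * ((s + 1) / 2 + a) = s + (2 * a + s % 2) by omega,
      show 2 * ((s + 1) / 2 + b) = s + (2 * b + s % 2) by omega,
      show 2 * ((s + 1) / 2 + l / 2 + a) = s + l + (2 * a + s % 2) by omega,
      show 2 * ((s + 1) / 2 + l / 2 + b) = s + l + (2 * b + s % 2) by omega]
    exact k

theorem h_mirror (K : ℕ) : ∀ n, n ≤ 2 ^ (K + 1) → h K (2 ^ (K + 1) - n) = - h K n := by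
  induction K with
  | zero => intro n _; simp [h]
  | succ K ih =>
    intro n hn
    have e2 : 2 ^ (K + 1 + 1) = 4 * 2 ^ K := by ring
    have e3 : 2 ^ (K + 1) = 2 * 2 ^ K := by ring
    have h4 : n % 4 = 1 ∨ n % 4 = 3 ∨ n % 2 = 0 := by omega
    rcases h4 with h4 | h4 | h4
    · rw [h_peak K n h4, h_valley K _ (by omega)]
    · rw [h_valley K n h4, h_peak K _ (by omega)]; norm_num
    · rw [h_mid K n h4, h_mid K _ (by omega)]
      rw [show (2 ^ (K + 1 + 1) - n) / 2 = 2 ^ (K + 1) - n / 2 by omega]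
      rw [ih (n / 2) (by omega)]
      ring

/-- the left gadget -/
def Lz : List ℤ := [216, 16, 17, 180, 144, 72, 108, 324, 11, 10, 12, 288, 252, 13, 14, 15]

/-- the left gadget as rationals -/
def L (i : ℕ) : ℚ := ((Lz.getD i 0 : ℤ) : ℚ) / 36

/-- the levels of the whole sequence -/
def H (K i : ℕ) : ℚ :=
  if i < 16 then L i
  else if i + 27 < 2 ^ (K + 1) then h K (i + 6)
  else - L (2 ^ (K + 1) - 12 - i)

/-- order relation of the whole sequence -/
def R (K i j : ℕ) : Prop := H K i < H K j ∨ (H K i = H K j ∧ i < j)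

theorem exists_u (K : ℕ) : ∃ u : ℕ → ℚ, ∀ i j, u i < u j ↔ R K i j := by
  have : Countable (ℚ ×ₗ ℕ) := inferInstanceAs (Countable (ℚ × ℕ))
  obtain ⟨e⟩ := Order.embedding_from_countable_to_dense (α := ℚ ×ₗ ℕ) (β := ℚ)
  refine ⟨fun i => e (toLex (H K i, i)), fun i j => ?_⟩
  simp only [e.lt_iff_lt, Prod.Lex.toLex_lt_toLex, R]

/-- explicit levels of the first forty entries, times 288 -/
def A : List ℤ := [1728, 128, 136, 1440, 1152, 576, 864, 2592, 88, 80, 96, 2304, 2016, 104, 112,
  120, -144, -288, -36, 288, 144, -288, -72, 288, -144, -288, 9, 288, 144, -288, 72, 288, -144,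
  -288, 36, 288, 144, -288, -72, 288]

/-- entry of `A` -/
def Ai (i : ℕ) : ℤ := A.getD i 0

theorem pow_big (k : ℕ) : 256 ≤ 2 ^ (k + 7 + 1) := by
  have : 2 ^ (k + 7 + 1) = 2 ^ k * 256 := by ring
  have h1 : 1 ≤ 2 ^ k := Nat.one_le_two_pow
  omega

theorem H_window (k i : ℕ) (hi : i < 40) : H (k + 7) i = (Ai i : ℚ) / 288 := by
  have hb := pow_big k
  by_cases h16 : i < 16
  · unfold H
    rw [if_pos h16]
    clear hb hi
    interval_cases i <;> norm_num [L, Lz, Ai, A]
  · unfold H
    rw [if_neg h16, if_pos (by omega)]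
    clear hb
    push Not at h16
    interval_cases i <;> norm_num [h, Ai, A]

/-- integer order relation on the window -/
def RZ (i j : ℕ) : Prop := Ai i < Ai j ∨ (Ai i = Ai j ∧ i < j)

instance (i j : ℕ) : Decidable (RZ i j) := by unfold RZ; infer_instance

theorem R_window (k i j : ℕ) (hi : i < 40) (hj : j < 40) : R (k + 7) i j ↔ RZ i j := by
  unfold R RZ
  rw [H_window k i hi, H_window k j hj]
  have e : ∀ x y : ℤ, ((x : ℚ) / 288 < (y : ℚ) / 288 ↔ x < y) := by
    intro x y
    rw [div_lt_div_iff_of_pos_right (by norm_num)]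
    exact Int.cast_lt
  have e' : ∀ x y : ℤ, ((x : ℚ) / 288 = (y : ℚ) / 288 ↔ x = y) := by
    intro x y
    rw [div_left_inj' (by norm_num)]
    exact Int.cast_inj
  rw [e, e']

theorem finite1 : ∀ i < 16, ∀ t < 3, ∃ a < 4 * (t + 1), ∃ b < 4 * (t + 1),
    ¬ (RZ (i + a) (i + b) ↔ RZ (i + 4 * (t + 1) + a) (i + 4 * (t + 1) + b)) := by
  decide +kernel

/-- class of a position: valley 0, middle 1, peak 2 -/
def cls (i : ℕ) : ℕ := if i % 4 = 1 then 0 else if i % 4 = 3 then 2 else 1

theorem finite2 : ∀ i < 16, ∃ a < 8, ∃ b < 8, cls (i + a) < cls (i + b) ∧ Ai (i + b) < Ai (i + a) := by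
  decide +kernel

theorem finite3 : ∀ i < 39, (RZ i (i + 1) ↔ (i % 4 = 1 ∨ i % 4 = 2)) := by
  decide +kernel

theorem H_mid (K i : ℕ) (h1 : 16 ≤ i) (h2 : i + 27 < 2 ^ (K + 1)) : H K i = h K (i + 6) := by
  unfold H
  rw [if_neg (by omega), if_pos h2]

theorem cls_lt (K i j : ℕ) (h1 : 16 ≤ i) (h2 : i + 27 < 2 ^ (K + 1 + 1)) (h3 : 16 ≤ j)
    (h4 : j + 27 < 2 ^ (K + 1 + 1)) (hc : cls i < cls j) : H (K + 1) i < H (K + 1) j := by
  rw [H_mid (K + 1) i h1 h2, H_mid (K + 1) j h3 h4]
  unfold cls at hc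
  have hi : i % 4 = 1 ∨ i % 4 = 3 ∨ i % 2 = 0 := by omega
  have hj : j % 4 = 1 ∨ j % 4 = 3 ∨ j % 2 = 0 := by omega
  rcases hi with hi | hi | hi
  · rw [h_valley K (i + 6) (by omega)]
    rcases hj with hj | hj | hj
    · rw [if_pos hi, if_pos hj] at hc; omega
    · rw [h_peak K (j + 6) (by omega)]; norm_num
    · have := (h_mid_le K (j + 6) (by omega)).1; linarith
  · split_ifs at hc <;> omega
  · have hm := (h_mid_le K (i + 6) (by omega)).2
    rcases hj with hj | hj | hj
    · rw [if_pos hj] at hc; omega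
    · rw [h_peak K (j + 6) (by omega)]; linarith
    · split_ifs at hc <;> omega

theorem H_mirror (K i : ℕ) (hK : 64 ≤ 2 ^ (K + 1)) (hi : i + 11 < 2 ^ (K + 1)) :
    H K (2 ^ (K + 1) - 12 - i) = - H K i := by
  by_cases h1 : i < 16
  · have e1 : H K i = L i := by unfold H; rw [if_pos h1]
    have e2 : H K (2 ^ (K + 1) - 12 - i) = - L i := by
      unfold H
      rw [if_neg (by omega), if_neg (by omega)]
      congr 2
      omega
    rw [e1, e2]
  · by_cases h2 : i + 27 < 2 ^ (K + 1)
    · rw [H_mid K i (by omega) h2, H_mid K _ (by omega) (by omega)]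
      rw [← h_mirror K (i + 6) (by omega)]
      congr 1
      omega
    · have e1 : H K i = - L (2 ^ (K + 1) - 12 - i) := by
        unfold H
        rw [if_neg h1, if_neg h2]
      have e2 : H K (2 ^ (K + 1) - 12 - i) = L (2 ^ (K + 1) - 12 - i) := by
        unfold H
        rw [if_pos (by omega)]
      rw [e1, e2]
      ring

theorem R_mirror (K i j : ℕ) (hK : 64 ≤ 2 ^ (K + 1)) (hi : i + 11 < 2 ^ (K + 1))
    (hj : j + 11 < 2 ^ (K + 1)) :
    R K (2 ^ (K + 1) - 12 - j) (2 ^ (K + 1) - 12 - i) ↔ R K i j := by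
  unfold R
  rw [H_mirror K i hK hi, H_mirror K j hK hj]
  constructor
  · rintro (h1 | ⟨h1, h2⟩)
    · left; linarith
    · right; exact ⟨by linarith, by omega⟩
  · rintro (h1 | ⟨h1, h2⟩)
    · left; linarith
    · right; exact ⟨by linarith, by omega⟩

theorem R_mid (K i j : ℕ) (h1 : 16 ≤ i) (h2 : i + 27 < 2 ^ (K + 1)) (h3 : 16 ≤ j)
    (h4 : j + 27 < 2 ^ (K + 1)) : R K i j ↔ S K (i + 6) (j + 6) := by
  unfold R S
  rw [H_mid K i h1 h2, H_mid K j h3 h4]
  constructor
  · rintro (h1 | ⟨h1, h2⟩)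
    · left; exact h1
    · right; exact ⟨h1, by omega⟩
  · rintro (h1 | ⟨h1, h2⟩)
    · left; exact h1
    · right; exact ⟨h1, by omega⟩

theorem R_step (k i : ℕ) (hi : i + 12 < 2 ^ (k + 7 + 1)) :
    R (k + 7) i (i + 1) ↔ (i % 4 = 1 ∨ i % 4 = 2) := by
  have hb := pow_big k
  by_cases h1 : i < 39
  · rw [R_window k i (i + 1) (by omega) (by omega)]
    exact finite3 i h1
  · by_cases h2 : i + 28 < 2 ^ (k + 7 + 1)
    · rw [R_mid (k + 7) i (i + 1) (by omega) (by omega) (by omega) (by omega)]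
      rw [show i + 1 + 6 = i + 6 + 1 by omega, S_step (k + 6) (i + 6)]
      omega
    · rw [← R_mirror (k + 7) i (i + 1) (by omega) (by omega) (by omega)]
      have e4 : 2 ^ (k + 7 + 1) = 4 * 2 ^ (k + 6) := by ring
      rw [show 2 ^ (k + 7 + 1) - 12 - i = 2 ^ (k + 7 + 1) - 12 - (i + 1) + 1 by omega]
      rw [R_window k _ _ (by omega) (by omega), finite3 _ (by omega)]
      omega

/-- squares in the order relation `R` -/
def SqR (K i l : ℕ) : Prop :=
  ∀ a < l, ∀ b < l, (R K (i + a) (i + b) ↔ R K (i + l + a) (i + l + b))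

theorem four_dvd (k i l : ℕ) (hl : 2 ≤ l) (hi : i + 2 * l + 11 ≤ 2 ^ (k + 7 + 1))
    (hs : SqR (k + 7) i l) : l % 4 = 0 := by
  have c0 := hs 0 (by omega) 1 (by omega)
  simp only [Nat.add_zero] at c0
  rw [R_step k i (by omega), R_step k (i + l) (by omega)] at c0
  by_contra h4
  by_cases h5 : l = 2
  · omega
  · have c1 := hs 1 (by omega) 2 (by omega)
    rw [show i + 2 = i + 1 + 1 by omega, show i + l + 2 = i + l + 1 + 1 by omega,
      R_step k (i + 1) (by omega), R_step k (i + l + 1) (by omega)] at c1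
    omega

theorem noSq_left (k i l : ℕ) (h16 : i < 16) (hl : 2 ≤ l)
    (hi : i + 2 * l + 11 ≤ 2 ^ (k + 7 + 1)) : ¬ SqR (k + 7) i l := by
  intro hs
  have hb := pow_big k
  have h4 := four_dvd k i l hl hi hs
  by_cases hl2 : l < 16
  · obtain ⟨t, rfl⟩ : ∃ t, l = 4 * (t + 1) := ⟨l / 4 - 1, by omega⟩
    obtain ⟨a, ha, b, hb', hab⟩ := finite1 i h16 t (by omega)
    apply hab
    have := hs a ha b hb'
    rw [R_window k _ _ (by omega) (by omega), R_window k _ _ (by omega) (by omega)] at this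
    exact this
  · obtain ⟨a, ha, b, hb', hc, hA⟩ := finite2 i h16
    have h1 : R (k + 7) (i + b) (i + a) := by
      rw [R_window k _ _ (by omega) (by omega)]
      left; exact hA
    have h2 := (hs b (by omega) a (by omega)).1 h1
    have hc' : cls (i + l + a) < cls (i + l + b) := by
      have e : ∀ c, cls (i + l + c) = cls (i + c) := by
        intro c
        unfold cls
        have : (i + l + c) % 4 = (i + c) % 4 := by omega
        rw [this]
      rw [e, e]; exact hc
    have e7 : 2 ^ (k + 6 + 1 + 1) = 2 ^ (k + 7 + 1) := rfl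
    have h3 := cls_lt (k + 6) (i + l + a) (i + l + b) (by omega) (by omega) (by omega) (by omega) hc'
    rcases h2 with h2 | ⟨h2, -⟩
    · exact absurd h2 (not_lt.2 h3.le)
    · exact absurd h2 h3.ne'

theorem noSq (k i l : ℕ) (hl : 2 ≤ l)
    (hi : i + 2 * l + 11 ≤ 2 ^ (k + 7 + 1)) : ¬ SqR (k + 7) i l := by
  have hb := pow_big k
  by_cases h16 : i < 16
  · exact noSq_left k i l h16 hl hi
  · by_cases h2 : i + 2 * l + 27 ≤ 2 ^ (k + 7 + 1)
    · intro hs
      apply noSq_S (k + 7) (i + 6) l (by omega) (by omega) hl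
      intro a ha b hb'
      have := hs a ha b hb'
      rw [R_mid _ _ _ (by omega) (by omega) (by omega) (by omega),
        R_mid _ _ _ (by omega) (by omega) (by omega) (by omega)] at this
      rw [show i + 6 + a = i + a + 6 by omega, show i + 6 + b = i + b + 6 by omega,
        show i + 6 + l + a = i + l + a + 6 by omega, show i + 6 + l + b = i + l + b + 6 by omega]
      exact this
    · intro hs
      apply noSq_left k (2 ^ (k + 7 + 1) - 11 - i - 2 * l) l (by omega) hl (by omega)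
      intro a ha b hb'
      have e := hs (l - 1 - b) (by omega) (l - 1 - a) (by omega)
      rw [← R_mirror (k + 7) (i + (l - 1 - b)) (i + (l - 1 - a)) (by omega) (by omega) (by omega),
        ← R_mirror (k + 7) (i + l + (l - 1 - b)) (i + l + (l - 1 - a)) (by omega) (by omega)
          (by omega)] at e
      rw [show 2 ^ (k + 7 + 1) - 12 - (i + (l - 1 - a)) =
          2 ^ (k + 7 + 1) - 11 - i - 2 * l + l + a by omega,
        show 2 ^ (k + 7 + 1) - 12 - (i + (l - 1 - b)) =
          2 ^ (k + 7 + 1) - 11 - i - 2 * l + l + b by omega,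
        show 2 ^ (k + 7 + 1) - 12 - (i + l + (l - 1 - a)) =
          2 ^ (k + 7 + 1) - 11 - i - 2 * l + a by omega,
        show 2 ^ (k + 7 + 1) - 12 - (i + l + (l - 1 - b)) =
          2 ^ (k + 7 + 1) - 11 - i - 2 * l + b by omega] at e
      exact e.symm

end Pool.Agent.J6H51.SqFree
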