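import Pool.Agent.J6H51.SqFree.Basic

set_option autoImplicit false

namespace Pool.Agent.J6H51.SqFree

/-- the sequence `u` with `x` inserted after the first `p` entries -/
def ins {α : Type} (u : ℕ → α) (p : ℕ) (x : α) (i : ℕ) : α :=
  if i < p then u i else if i = p then x else u (i - 1)

/-- ranks of the first fifteen entries of the gadget -/
def rkL : List ℤ := [11, 5, 6, 10, 9, 7, 8, 14, 1, 0, 2, 13, 12, 3, 4]

/-- positions of the entries sorted by rank -/
def posL : List ℕ := [9, 8, 10, 13, 14, 1, 2, 5, 6, 4, 3, 0, 12, 11, 7]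

/-- rank -/
def rk (i : ℕ) : ℤ := rkL.getD i 0

/-- position -/
def pos (i : ℕ) : ℕ := posL.getD i 0

theorem rk_pos : ∀ i < 15, rk (pos i) = i ∧ pos i < 15 := by decide +kernel

theorem pos_rk : ∀ i < 15, pos (rk i).toNat = i ∧ 0 ≤ rk i ∧ rk i < 15 := by decide +kernel

theorem rk_RZ : ∀ i < 15, ∀ j < 15, (RZ i j ↔ rk i < rk j) := by decide +kernel

/-- integer version of the inserted sequence -/
def insZ (r p : ℕ) : ℕ → ℤ := ins (fun i => 2 * rk i + 1) p (2 * r)

/-- squares for integer sequences -/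
def SqZ (z : ℕ → ℤ) (i l : ℕ) : Prop :=
  ∀ a < l, ∀ b < l, (z (i + a) < z (i + b) ↔ z (i + l + a) < z (i + l + b))

instance (z : ℕ → ℤ) (i l : ℕ) : Decidable (SqZ z i l) := by unfold SqZ; infer_instance

theorem finite4 : ∀ r < 16, ∀ p < 3, ∃ s < 13, ∃ t < 3,
    s + 2 * 2 ^ (t + 1) ≤ 16 ∧ SqZ (insZ r p) s (2 ^ (t + 1)) := by
  decide +kernel

theorem cut (g : ℕ → ℚ) (x : ℚ) (m : ℕ) (hg : ∀ i j, i < j → j < m → g i < g j)
    (hx : ∀ i < m, x ≠ g i) : ∃ r ≤ m, ∀ q < m, (g q < x ↔ q < r) := by
  induction m with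
  | zero => exact ⟨0, le_refl _, by intro q hq; omega⟩
  | succ m ih =>
    obtain ⟨r, hr, h⟩ := ih (fun i j h1 h2 => hg i j h1 (by omega)) (fun i hi => hx i (by omega))
    by_cases hm : g m < x
    · refine ⟨m + 1, le_refl _, fun q hq => ⟨fun _ => hq, fun _ => ?_⟩⟩
      rcases Nat.lt_or_ge q m with h1 | h1
      · exact (hg q m h1 (by omega)).trans hm
      · have : q = m := by omega
        rw [this]; exact hm
    · refine ⟨r, by omega, fun q hq => ?_⟩
      rcases Nat.lt_or_ge q m with h1 | h1
      · exact h q h1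
      · have : q = m := by omega
        rw [this]
        constructor
        · intro h2; exact absurd h2 hm
        · intro h2; omega

theorem left_insert (v : ℕ → ℚ) (hv : ∀ i < 15, ∀ j < 15, (v i < v j ↔ RZ i j)) (x : ℚ)
    (hx : ∀ i < 15, x ≠ v i) (p : ℕ) (hp : p < 3) :
    ∃ s l, 2 ≤ l ∧ s + 2 * l ≤ 16 ∧ Sq (ins v p x) s l := by
  obtain ⟨r, hr, hcut⟩ := cut (fun q => v (pos q)) x 15
    (by
      intro i j hij hj
      have h1 := rk_pos i (by omega)
      have h2 := rk_pos j hj
      rw [hv _ h1.2 _ h2.2, rk_RZ _ h1.2 _ h2.2, h1.1, h2.1]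
      exact_mod_cast hij)
    (fun i hi => hx _ (rk_pos i hi).2)
  have hvx : ∀ i < 15, (v i < x ↔ rk i < r) := by
    intro i hi
    obtain ⟨h1, h2, h3⟩ := pos_rk i hi
    have h4 := hcut (rk i).toNat (by omega)
    simp only [h1] at h4
    rw [h4]
    omega
  have key : ∀ i < 16, ∀ j < 16, (ins v p x i < ins v p x j ↔ insZ r p i < insZ r p j) := by
    intro i hi j hj
    have hxv : ∀ i < 15, (x < v i ↔ ¬ rk i < r) := by
      intro i hi
      rw [← hvx i hi]
      constructor
      · intro h; exact not_lt.2 h.le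
      · intro h; exact lt_of_le_of_ne (not_lt.1 h) (hx i hi)
    unfold insZ ins
    beta_reduce
    by_cases h1 : i < p
    · rw [if_pos h1, if_pos h1]
      by_cases h2 : j < p
      · rw [if_pos h2, if_pos h2, hv i (by omega) j (by omega), rk_RZ i (by omega) j (by omega)]
        constructor <;> intro h <;> linarith
      · rw [if_neg h2, if_neg h2]
        by_cases h3 : j = p
        · rw [if_pos h3, if_pos h3, hvx i (by omega)]
          constructor <;> intro h <;> omega
        · rw [if_neg h3, if_neg h3, hv i (by omega) (j - 1) (by omega),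
            rk_RZ i (by omega) (j - 1) (by omega)]
          constructor <;> intro h <;> linarith
    · rw [if_neg h1, if_neg h1]
      by_cases h0 : i = p
      · rw [if_pos h0, if_pos h0]
        by_cases h2 : j < p
        · rw [if_pos h2, if_pos h2, hxv j (by omega)]
          constructor <;> intro h <;> omega
        · rw [if_neg h2, if_neg h2]
          by_cases h3 : j = p
          · rw [if_pos h3, if_pos h3]
            simp
          · rw [if_neg h3, if_neg h3, hxv (j - 1) (by omega)]
            constructor <;> intro h <;> omega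
      · rw [if_neg h0, if_neg h0]
        by_cases h2 : j < p
        · rw [if_pos h2, if_pos h2, hv (i - 1) (by omega) j (by omega),
            rk_RZ (i - 1) (by omega) j (by omega)]
          constructor <;> intro h <;> linarith
        · rw [if_neg h2, if_neg h2]
          by_cases h3 : j = p
          · rw [if_pos h3, if_pos h3, hvx (i - 1) (by omega)]
            constructor <;> intro h <;> omega
          · rw [if_neg h3, if_neg h3, hv (i - 1) (by omega) (j - 1) (by omega),
              rk_RZ (i - 1) (by omega) (j - 1) (by omega)]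
            constructor <;> intro h <;> linarith
  obtain ⟨s, hs, t, ht, hst, hsq⟩ := finite4 r (by omega) p hp
  have ht2 : 2 ≤ 2 ^ (t + 1) := by
    have : 1 ≤ 2 ^ t := Nat.one_le_two_pow
    have e : 2 ^ (t + 1) = 2 * 2 ^ t := by ring
    omega
  refine ⟨s, 2 ^ (t + 1), ht2, hst, ?_⟩
  intro a ha b hb
  rw [key _ (by omega) _ (by omega), key _ (by omega) _ (by omega)]
  exact hsq a ha b hb

theorem sq_two (z : ℕ → ℚ) (s : ℕ) (h1 : z s ≠ z (s + 1)) (h2 : z (s + 2) ≠ z (s + 3))
    (h : z s < z (s + 1) ↔ z (s + 2) < z (s + 3)) : Sq z s 2 := by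
  intro a ha b hb
  have ha' : a = 0 ∨ a = 1 := by omega
  have hb' : b = 0 ∨ b = 1 := by omega
  rcases ha' with rfl | rfl <;> rcases hb' with rfl | rfl
  · simp
  · simpa using h
  · rw [show s + 2 + 1 = s + 3 by omega, Nat.add_zero, Nat.add_zero]
    constructor
    · intro h3
      have h4 : ¬ z s < z (s + 1) := not_lt.2 h3.le
      rw [h] at h4
      exact lt_of_le_of_ne (not_lt.1 h4) h2.symm
    · intro h3
      have h4 : ¬ z (s + 2) < z (s + 3) := not_lt.2 h3.le
      rw [← h] at h4
      exact lt_of_le_of_ne (not_lt.1 h4) h1.symm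
  · simp

theorem mid_insert (u : ℕ → ℚ) (n : ℕ)
    (hu : ∀ i, i + 1 < n → (u i < u (i + 1) ↔ (i % 4 = 1 ∨ i % 4 = 2)))
    (hinj : ∀ i, i + 1 < n → u i ≠ u (i + 1)) (x : ℚ) (hx : ∀ i < n, x ≠ u i)
    (p : ℕ) (hp : 3 ≤ p) (hpn : p + 3 ≤ n) :
    ∃ s, s + 4 ≤ n + 1 ∧ Sq (ins u p x) s 2 := by
  obtain ⟨q, rfl⟩ : ∃ q, p = q + 3 := ⟨p - 3, by omega⟩
  by_contra hcon
  push Not at hcon
  have z0 : ins u (q + 3) x q = u q := by unfold ins; rw [if_pos (by omega)]
  have z1 : ins u (q + 3) x (q + 1) = u (q + 1) := by unfold ins; rw [if_pos (by omega)]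
  have z2 : ins u (q + 3) x (q + 2) = u (q + 2) := by unfold ins; rw [if_pos (by omega)]
  have z3 : ins u (q + 3) x (q + 3) = x := by unfold ins; rw [if_neg (by omega), if_pos rfl]
  have z4 : ins u (q + 3) x (q + 4) = u (q + 3) := by
    unfold ins; rw [if_neg (by omega), if_neg (by omega)]; rfl
  have z5 : ins u (q + 3) x (q + 5) = u (q + 4) := by
    unfold ins; rw [if_neg (by omega), if_neg (by omega)]; rfl
  have z6 : ins u (q + 3) x (q + 6) = u (q + 5) := by
    unfold ins; rw [if_neg (by omega), if_neg (by omega)]; rfl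
  have s0 : ¬ (u q < u (q + 1) ↔ u (q + 2) < x) := by
    intro h
    apply hcon q (by omega)
    apply sq_two
    · rw [z0, z1]; exact hinj q (by omega)
    · rw [z2, z3]; exact (hx _ (by omega)).symm
    · rw [z0, z1, z2, z3]; exact h
  have s1 : ¬ (u (q + 1) < u (q + 2) ↔ x < u (q + 3)) := by
    intro h
    apply hcon (q + 1) (by omega)
    apply sq_two
    · rw [z1, show q + 1 + 1 = q + 2 by omega, z2]; exact hinj (q + 1) (by omega)
    · rw [show q + 1 + 2 = q + 3 by omega, show q + 1 + 3 = q + 4 by omega, z3, z4]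
      exact hx _ (by omega)
    · rw [show q + 1 + 1 = q + 2 by omega, show q + 1 + 2 = q + 3 by omega,
        show q + 1 + 3 = q + 4 by omega, z1, z2, z3, z4]; exact h
  have s2 : ¬ (u (q + 2) < x ↔ u (q + 3) < u (q + 4)) := by
    intro h
    apply hcon (q + 2) (by omega)
    apply sq_two
    · rw [z2, show q + 2 + 1 = q + 3 by omega, z3]; exact (hx _ (by omega)).symm
    · rw [show q + 2 + 2 = q + 4 by omega, show q + 2 + 3 = q + 5 by omega, z4, z5]
      exact hinj (q + 3) (by omega)
    · rw [show q + 2 + 1 = q + 3 by omega, show q + 2 + 2 = q + 4 by omega,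
        show q + 2 + 3 = q + 5 by omega, z2, z3, z4, z5]; exact h
  have s3 : ¬ (x < u (q + 3) ↔ u (q + 4) < u (q + 5)) := by
    intro h
    apply hcon (q + 3) (by omega)
    apply sq_two
    · rw [z3, show q + 3 + 1 = q + 4 by omega, z4]; exact hx _ (by omega)
    · rw [show q + 3 + 2 = q + 5 by omega, show q + 3 + 3 = q + 6 by omega, z5, z6]
      exact hinj (q + 4) (by omega)
    · rw [show q + 3 + 1 = q + 4 by omega, show q + 3 + 2 = q + 5 by omega,
        show q + 3 + 3 = q + 6 by omega, z3, z4, z5, z6]; exact h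
  rw [hu q (by omega)] at s0
  rw [show q + 2 = q + 1 + 1 by omega, hu (q + 1) (by omega)] at s1
  rw [show q + 4 = q + 3 + 1 by omega, hu (q + 3) (by omega)] at s2
  rw [show q + 5 = q + 4 + 1 by omega, hu (q + 4) (by omega)] at s3
  by_cases ha : u (q + 2) < x <;> by_cases hb : x < u (q + 3) <;> simp only [ha, hb, iff_true, iff_false, true_iff, false_iff, not_not] at s0 s1 s2 s3 <;> omega

theorem list_ins (n : ℕ) (u : ℕ → ℚ) (p : ℕ) (hp : p ≤ n) (x : ℚ) (i : ℕ) (hi : i < n + 1) :
    ((((List.range n).map u).take p) ++ x :: (((List.range n).map u).drop p)).getD i 0 =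
      ins u p x i := by
  have hl : (((List.range n).map u).take p).length = p := by simp [hp]
  unfold ins
  by_cases h1 : i < p
  · rw [if_pos h1, List.getD_append _ _ _ _ (by rw [hl]; exact h1)]
    rw [List.getD_eq_getElem _ _ (by rw [hl]; exact h1)]
    simp
  · rw [if_neg h1, List.getD_append_right _ _ _ _ (by rw [hl]; omega), hl]
    by_cases h2 : i = p
    · rw [if_pos h2, h2]; simp
    · rw [if_neg h2]
      obtain ⟨j, rfl⟩ : ∃ j, i = p + 1 + j := ⟨i - p - 1, by omega⟩
      rw [show p + 1 + j - p = j + 1 by omega, List.getD_cons_succ]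
      rw [List.getD_eq_getElem _ _ (by simp; omega)]
      simp only [List.getElem_drop, List.getElem_map, List.getElem_range]
      congr 1
      omega

end Pool.Agent.J6H51.SqFree
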